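import Pool.Agent.Helper47.ME.Goals

/-!
Packet ME-SUBE of helper47: a closed subset of full measure of a convex body is the body.
-/

open MeasureTheory Set Filter Topology
open scoped ENNReal Quaternion
open Pool.Agent.Helper47.AQ
open Pool.Agent.Helper72.MK
open Pool.Agent.Helper47.ME

namespace Pool.Agent.Helper69.ME

/-- **Packet ME-SUBE.** -/
theorem sube : SUBEStmt := by
  intro n P Q hP hQ hsub hvol
  obtain ⟨hconv, hcomp, hint⟩ := hP
  refine Subset.antisymm ?_ hsub
  intro z hz
  by_contra hzQ
  have hcl : closure (interior P) = closure P :=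
    hconv.closure_interior_eq_closure_of_nonempty_interior hint
  have hzcl : z ∈ closure (interior P) := by
    rw [hcl]
    exact subset_closure hz
  have hUne : (interior P ∩ Qᶜ).Nonempty := by
    have := mem_closure_iff.1 hzcl Qᶜ hQ.isOpen_compl hzQ
    rwa [inter_comm] at this
  have hUo : IsOpen (interior P ∩ Qᶜ) := isOpen_interior.inter hQ.isOpen_compl
  have hUpos : 0 < volume (interior P ∩ Qᶜ) := hUo.measure_pos volume hUne
  have hfin : volume Q ≠ ⊤ := ((measure_mono hsub).trans_lt hcomp.measure_lt_top).ne
  have hdisj : Disjoint Q (interior P ∩ Qᶜ) :=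
    Set.disjoint_left.2 fun x hx hx' => hx'.2 hx
  have h1 : volume Q + volume (interior P ∩ Qᶜ) ≤ volume P := by
    rw [← measure_union hdisj hUo.measurableSet]
    exact measure_mono (union_subset hsub (inter_subset_left.trans interior_subset))
  have h2 : volume Q + volume (interior P ∩ Qᶜ) ≤ volume Q := h1.trans hvol
  have h3 : volume Q < volume Q + volume (interior P ∩ Qᶜ) :=
    ENNReal.lt_add_right hfin hUpos.ne'
  exact absurd h2 (not_le.2 h3)

end Pool.Agent.Helper69.ME
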